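import Pool.Agent.U94.TC.Dict
import Pool.Agent.NPC.Sat2
import Pool.Agent.H671R2.PolyAuto

/-!
# A template which is preserved by the type clone and has an NP-hard constraint satisfaction problem
-/

set_option autoImplicit false

namespace Pool.Agent.U94.TC

open Pool.Agent.NPC

/-- `Γ` contains the strict order of the rational numbers. -/
def HasOrder {κ : Type} {arΓ : κ → ℕ} (Γ : Str κ arΓ ℚ) : Prop :=
  ∃ (j : κ) (h : arΓ j = 2), ∀ v : Fin 2 → ℚ, (fun i => v (Fin.cast h i)) ∈ Γ j ↔ v 0 < v 1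

variable {n : ℕ} (c : Fin n → ℚ)

/-- The template on the set of the types of pairs: clauses with three literals, where a variable is
the type of a pair of different elements of an interval, and it is true if the pair is increasing. -/
def tmpl : Str (Fin 8) (fun _ => 3) (Ty ratStr c 2) := fun i =>
  {t | ∃ (p : ℚ) (a : Fin 3 → Fin 2 → ℚ), (∀ j, t j = ty ratStr c (a j)) ∧
    (∀ j x, SameType ratStr c (fun _ : Fin 1 => p) (fun _ => a j x)) ∧
    (∀ j, a j 0 ≠ a j 1) ∧ ∃ j : Fin 3, (a j 0 < a j 1 ↔ (i : ℕ).testBit j = true)}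

/-- The orbit of a point. -/
def orbit (p : ℚ) : Set ℚ := {x | SameType ratStr c (fun _ : Fin 1 => p) (fun _ => x)}

variable {c}

theorem mem_orbit_iff {p x : ℚ} : x ∈ orbit c p ↔
    (∀ l, p < c l ↔ x < c l) ∧ (∀ l, c l < p ↔ c l < x) := by
  constructor
  · intro h
    exact ⟨fun l => h.lt_const 0 l, fun l => h.const_lt 0 l⟩
  · rintro ⟨h1, h2⟩
    exact sameType_rat (fun _ _ => by simp) (fun _ l => h1 l) (fun _ l => h2 l)

theorem orbit_ne {p x y : ℚ} (hx : x ∈ orbit c p) (hy : y ∈ orbit c p) (hxy : x ≠ y)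
    (z : ℚ) (hz : z ∈ orbit c p) (l : Fin n) : z ≠ c l := by
  rintro rfl
  rw [mem_orbit_iff] at hx hy hz
  have h1 := (hx.1 l).symm.trans (hz.1 l)
  have h2 := (hx.2 l).symm.trans (hz.2 l)
  have h3 := (hy.1 l).symm.trans (hz.1 l)
  have h4 := (hy.2 l).symm.trans (hz.2 l)
  simp only [lt_irrefl, iff_false, not_lt] at h1 h2 h3 h4
  exact hxy ((le_antisymm h2 h1).trans (le_antisymm h4 h3).symm)

theorem exists_below (x : ℚ) : ∃ y < x, ∀ l, c l < x → c l < y := by
  classical
  let s := (Finset.univ.image c).filter (fun z => z < x)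
  by_cases hs : s.Nonempty
  · obtain ⟨h1, h2⟩ := Finset.mem_filter.1 (s.max'_mem hs)
    obtain ⟨y, hy1, hy2⟩ := exists_between h2
    refine ⟨y, hy2, fun l hl => ?_⟩
    have h3 : c l ∈ s := Finset.mem_filter.2 ⟨Finset.mem_image.2 ⟨l, Finset.mem_univ _, rfl⟩, hl⟩
    exact (s.le_max' _ h3).trans_lt hy1
  · refine ⟨x - 1, by linarith, fun l hl => ?_⟩
    exact absurd ⟨c l, Finset.mem_filter.2 ⟨Finset.mem_image.2 ⟨l, Finset.mem_univ _, rfl⟩, hl⟩⟩ hs

theorem exists_above (x : ℚ) : ∃ y, x < y ∧ ∀ l, x < c l → y < c l := by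
  obtain ⟨y, hy, h⟩ := exists_below (c := fun l => - c l) (-x)
  refine ⟨-y, by linarith, fun l hl => ?_⟩
  have := h l (by linarith)
  linarith

theorem good_orbits {k : ℕ} {p : Fin k → ℚ} {f : (Fin k → ℚ) → ℚ} (hf : Preserves f (ratStr 0))
    (hcan : Canonical ratStr c f) (hp : ∀ i, ∃ x ∈ orbit c (p i), ∃ y ∈ orbit c (p i), x ≠ y) :
    Good (fun i => orbit c (p i)) f where
  below i x hx := by
    obtain ⟨x₁, h1, y₁, h2, hxy⟩ := hp i
    have hne := orbit_ne h1 h2 hxy x hx
    obtain ⟨y, hy, h⟩ := exists_below (c := c) x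
    refine ⟨y, ?_, hy⟩
    rw [mem_orbit_iff] at hx ⊢
    refine ⟨fun l => (hx.1 l).trans ⟨fun h' => hy.trans h', fun h' => ?_⟩,
      fun l => (hx.2 l).trans ⟨h l, fun h' => h'.trans hy⟩⟩
    rcases lt_or_gt_of_ne (hne l) with h3 | h3
    · exact h3
    · exact absurd (h l h3) h'.asymm
  above i x hx := by
    obtain ⟨x₁, h1, y₁, h2, hxy⟩ := hp i
    have hne := orbit_ne h1 h2 hxy x hx
    obtain ⟨y, hy, h⟩ := exists_above (c := c) x
    refine ⟨y, ?_, hy⟩
    rw [mem_orbit_iff] at hx ⊢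
    refine ⟨fun l => (hx.1 l).trans ⟨h l, fun h' => hy.trans h'⟩,
      fun l => (hx.2 l).trans ⟨fun h' => h'.trans hy, fun h' => ?_⟩⟩
    rcases lt_or_gt_of_ne (hne l) with h3 | h3
    · exact absurd (h l h3) h'.asymm
    · exact h3
  between i x hx y hy hxy := by
    obtain ⟨z, hz1, hz2⟩ := exists_between hxy
    refine ⟨z, ?_, hz1, hz2⟩
    rw [mem_orbit_iff] at hx hy ⊢
    refine ⟨fun l => ⟨fun h => hz2.trans ((hy.1 l).1 h), fun h => (hx.1 l).2 (hz1.trans h)⟩,
      fun l => ⟨fun h => ((hx.2 l).1 h).trans hz1, fun h => (hy.2 l).2 (h.trans hz2)⟩⟩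
  mono u v huv := by
    exact hf (fun i => ![u i, v i]) (fun i => huv i)
  can_lt A u v u' v' h h' hlt := by
    have h1 := hcan 2 (fun i => ![u i, v i]) (fun i => ![u' i, v' i]) (fun i => ?_)
    · exact (h1.lt_iff 0 1).1 hlt
    · have hu := mem_orbit_iff.1 (h.left i)
      have hv := mem_orbit_iff.1 (h.right i)
      have hu' := mem_orbit_iff.1 (h'.left i)
      have hv' := mem_orbit_iff.1 (h'.right i)
      have huv : u i < v i ↔ u' i < v' i := by
        by_cases hi : i ∈ A
        · exact iff_of_true (h.lt i hi) (h'.lt i hi)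
        · exact iff_of_false (h.gt i hi).asymm (h'.gt i hi).asymm
      have hvu : v i < u i ↔ v' i < u' i := by
        by_cases hi : i ∈ A
        · exact iff_of_false (h.lt i hi).asymm (h'.lt i hi).asymm
        · exact iff_of_true (h.gt i hi) (h'.gt i hi)
      refine sameType_rat (fun x y => ?_) (fun x l => ?_) (fun x l => ?_)
      · fin_cases x <;> fin_cases y
        · simp
        · exact huv
        · exact hvu
        · simp
      · fin_cases x
        · exact (hu.1 l).symm.trans (hu'.1 l)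
        · exact (hv.1 l).symm.trans (hv'.1 l)
      · fin_cases x
        · exact (hu.2 l).symm.trans (hu'.2 l)
        · exact (hv.2 l).symm.trans (hv'.2 l)
  can_eq A u v u' v' h h' heq := by
    have h1 := hcan 2 (fun i => ![u i, v i]) (fun i => ![u' i, v' i]) (fun i => ?_)
    · obtain ⟨g, -, -, hg⟩ := h1
      have h2 : g (f u) = f u' := hg 0
      have h3 : g (f v) = f v' := hg 1
      rw [← h2, ← h3, heq]
    · have hu := mem_orbit_iff.1 (h.left i)
      have hv := mem_orbit_iff.1 (h.right i)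
      have hu' := mem_orbit_iff.1 (h'.left i)
      have hv' := mem_orbit_iff.1 (h'.right i)
      have huv : u i < v i ↔ u' i < v' i := by
        by_cases hi : i ∈ A
        · exact iff_of_true (h.lt i hi) (h'.lt i hi)
        · exact iff_of_false (h.gt i hi).asymm (h'.gt i hi).asymm
      have hvu : v i < u i ↔ v' i < u' i := by
        by_cases hi : i ∈ A
        · exact iff_of_false (h.lt i hi).asymm (h'.lt i hi).asymm
        · exact iff_of_true (h.gt i hi) (h'.gt i hi)
      refine sameType_rat (fun x y => ?_) (fun x l => ?_) (fun x l => ?_)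
      · fin_cases x <;> fin_cases y
        · simp
        · exact huv
        · exact hvu
        · simp
      · fin_cases x
        · exact (hu.1 l).symm.trans (hu'.1 l)
        · exact (hv.1 l).symm.trans (hv'.1 l)
      · fin_cases x
        · exact (hu.2 l).symm.trans (hu'.2 l)
        · exact (hv.2 l).symm.trans (hv'.2 l)

theorem preserves_order {κ : Type} {arΓ : κ → ℕ} {Γ : Str κ arΓ ℚ} (hΓ : HasOrder Γ) {k : ℕ}
    {f : (Fin k → ℚ) → ℚ} (hf : ∀ i, Preserves f (Γ i)) : Preserves f (ratStr 0) := by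
  obtain ⟨j, h, hj⟩ := hΓ
  intro t ht
  have h1 := hf j (fun i x => t i (Fin.cast h x)) (fun i => (hj (t i)).2 (ht i))
  exact (hj (fun x => f (fun i => t i x))).1 h1

theorem typeClone_preserves {κ : Type} {arΓ : κ → ℕ} {Γ : Str κ arΓ ℚ} (hΓ : HasOrder Γ) {k : ℕ}
    {F : (Fin k → Ty ratStr c 2) → Ty ratStr c 2} (hF : F ∈ typeClone ratStr c Γ 2 k) (i : Fin 8) :
    Preserves F (tmpl c i) := by
  obtain ⟨f, hf, hcan, hFf⟩ := hF
  intro t ht
  choose p a h1 h2 h3 h4 using ht
  have hG := good_orbits (p := p) (preserves_order hΓ hf) hcan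
    (fun i => ⟨a i 0 0, h2 i 0 0, a i 0 1, h2 i 0 1, h3 i 0⟩)
  obtain ⟨d, hd⟩ := exists_dictator hG (u₀ := p) (fun i => SameType.refl _)
  refine ⟨f p, fun j x => f (fun i => a i j x), fun j => ?_, fun j x => ?_, fun j => ?_, ?_⟩
  · rw [← hFf (fun i => a i j)]
    change F (fun i => t i j) = F (fun i => ty ratStr c (a i j))
    congr 1
    funext i
    exact h1 i j
  · exact hcan 1 (fun i _ => p i) (fun i _ => a i j x) (fun i => h2 i j x)
  · exact (hd (fun i => a i j 0) (fun i => a i j 1) (fun i => h2 i j 0) (fun i => h2 i j 1)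
      (fun i => h3 i j)).2
  · obtain ⟨j, hj⟩ := h4 d
    refine ⟨j, ?_⟩
    rw [(hd (fun i => a i j 0) (fun i => a i j 1) (fun i => h2 i j 0) (fun i => h2 i j 1)
      (fun i => h3 i j)).1]
    exact hj

/-! ### The reduction -/

/-- The number of a clause. -/
def cnum (d : Lit ℕ × Lit ℕ × Lit ℕ) : ℕ :=
  (if d.1.1 = true then 1 else 0) + (if d.2.1.1 = true then 2 else 0) +
    (if d.2.2.1 = true then 4 else 0)

/-- The instance of a formula. -/
def red (φ : List (Lit ℕ × Lit ℕ × Lit ℕ)) : Inst :=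
  (φ.flatMap (fun _ => [(), (), ()]), φ.map (fun d => (cnum d, [d.1.2, d.2.1.2, d.2.2.2])))

theorem poly_red : Poly red := by
  unfold red cnum
  fun_prop

theorem red_length (φ : List (Lit ℕ × Lit ℕ × Lit ℕ)) : (red φ).1.length = 3 * φ.length := by
  simp [red, List.length_flatMap, mul_comm]

theorem cnum_lt (d : Lit ℕ × Lit ℕ × Lit ℕ) : cnum d < 8 := by
  unfold cnum
  split_ifs <;> norm_num

theorem testBit_aux : ∀ (b1 b2 b3 : Bool) (j : Fin 3), ((if b1 = true then 1 else 0) +
    (if b2 = true then 2 else 0) + (if b3 = true then 4 else 0) : ℕ).testBit j = ![b1, b2, b3] j := by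
  decide

theorem testBit_cnum (d : Lit ℕ × Lit ℕ × Lit ℕ) (j : Fin 3) :
    (cnum d).testBit j = ![d.1.1, d.2.1.1, d.2.2.1] j := testBit_aux _ _ _ j

variable (c) in
theorem exists_top : ∃ p : ℚ, ∀ l, c l < p := by
  classical
  by_cases hn : (Finset.univ : Finset (Fin n)).Nonempty
  · refine ⟨(Finset.univ.image c).max' (hn.image c) + 1, fun l => ?_⟩
    have := (Finset.univ.image c).le_max' (c l) (Finset.mem_image.2 ⟨l, Finset.mem_univ _, rfl⟩)
    linarith
  · exact ⟨0, fun l => absurd ⟨l, Finset.mem_univ _⟩ hn⟩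

/-- The pair is increasing. -/
def Incr (t : Ty ratStr c 2) : Prop := ∃ a : Fin 2 → ℚ, t = ty ratStr c a ∧ a 0 < a 1

theorem incr_ty (a : Fin 2 → ℚ) : Incr (ty ratStr c a) ↔ a 0 < a 1 := by
  constructor
  · rintro ⟨b, hb, hlt⟩
    have h : SameType ratStr c a b := Quotient.exact hb
    exact (h.lt_iff 0 1).2 hlt
  · intro h
    exact ⟨a, rfl, h⟩

theorem red_correct {φ : List (Lit ℕ × Lit ℕ × Lit ℕ)} (hφ : Bounded3 φ) :
    SAT3 φ ↔ CSP (tmpl c) (red φ) := by
  classical
  have hinst : IsInst (fun _ : Fin 8 => 3) (red φ) := by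
    intro p hp
    obtain ⟨d, hd, rfl⟩ := List.mem_map.1 hp
    refine ⟨⟨⟨cnum d, cnum_lt d⟩, rfl, rfl⟩, fun a ha => ?_⟩
    rw [red_length]
    obtain ⟨h1, h2, h3⟩ := hφ d hd
    simp only [List.mem_cons, List.not_mem_nil, or_false] at ha
    rcases ha with rfl | rfl | rfl
    · exact h1
    · exact h2
    · exact h3
  constructor
  · rintro ⟨τ, hτ⟩
    refine ⟨hinst, ?_⟩
    obtain ⟨p, hp⟩ := exists_top c
    let w : ℕ → Fin 2 → ℚ := fun v => if τ v = true then ![p, p + 1] else ![p + 1, p]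
    refine ⟨fun v => ty ratStr c (w v), ?_⟩
    intro i u hiu
    obtain ⟨d, hd, hdi⟩ := List.mem_map.1 hiu
    rw [Prod.mk.injEq] at hdi
    refine ⟨p, fun j => w (u j), fun j => rfl, fun j x => ?_, fun j => ?_, ?_⟩
    · change _ ∈ orbit c p
      rw [mem_orbit_iff]
      have hwx : w (u j) x = p ∨ w (u j) x = p + 1 := by
        by_cases h : τ (u j) = true <;> fin_cases x <;> simp [w, h]
      constructor
      · intro l
        have := hp l
        change p < c l ↔ w (u j) x < c l
        rcases hwx with h | h <;> rw [h]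
        exact iff_of_false this.asymm (by linarith)
      · intro l
        have := hp l
        change c l < p ↔ c l < w (u j) x
        rcases hwx with h | h <;> rw [h]
        exact iff_of_true this (by linarith)
    · by_cases h : τ (u j) = true <;> simp [w, h]
    · have hu : ∀ j : Fin 3, (u j : ℕ) = ![d.1.2, d.2.1.2, d.2.2.2] j := by
        intro j
        have h1 : List.ofFn ![d.1.2, d.2.1.2, d.2.2.2] = List.ofFn (fun j => (u j : ℕ)) := by
          rw [← hdi.2]
          rfl
        exact (congrFun (List.ofFn_injective h1) j).symm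
      have hw : ∀ j : Fin 3, (w (u j) 0 < w (u j) 1 ↔ τ (u j) = true) := by
        intro j
        by_cases h : τ (u j) = true <;> simp [w, h]
      have h2 : ∀ j : Fin 3, τ (u j) = ![d.1.1, d.2.1.1, d.2.2.1] j →
          (w (u j) 0 < w (u j) 1 ↔ (i : ℕ).testBit j = true) := by
        intro j hj
        rw [hw j, ← hdi.1, testBit_cnum, hj]
      rcases hτ d hd with h | h | h
      · exact ⟨0, h2 0 (by rw [hu]; exact h)⟩
      · exact ⟨1, h2 1 (by rw [hu]; exact h)⟩
      · exact ⟨2, h2 2 (by rw [hu]; exact h)⟩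
  · rintro ⟨-, h, hh⟩
    let τ : ℕ → Bool := fun v => if hv : v < (red φ).1.length then decide (Incr (h ⟨v, hv⟩)) else false
    refine ⟨τ, fun d hd => ?_⟩
    have hb := hinst _ (List.mem_map.2 ⟨d, hd, rfl⟩)
    have hlt : ∀ j : Fin 3, ![d.1.2, d.2.1.2, d.2.2.2] j < (red φ).1.length := by
      intro j
      apply hb.2
      fin_cases j <;> simp
    obtain ⟨p, a, h1, -, -, j, hj⟩ := hh ⟨cnum d, cnum_lt d⟩ (fun j => ⟨_, hlt j⟩)
      (List.mem_map.2 ⟨d, hd, rfl⟩)
    have h2 : τ (![d.1.2, d.2.1.2, d.2.2.2] j) = ![d.1.1, d.2.1.1, d.2.2.1] j := by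
      change (if hv : _ then _ else _) = _
      rw [dif_pos (hlt j)]
      have h3 : Incr (h ⟨_, hlt j⟩) ↔ a j 0 < a j 1 := by
        have h4 := h1 j
        dsimp only at h4
        rw [h4]
        exact incr_ty _
      change (a j 0 < a j 1 ↔ (cnum d).testBit j = true) at hj
      rw [testBit_cnum] at hj
      rw [Bool.eq_iff_iff, decide_eq_true_iff]
      exact h3.trans hj
    fin_cases j
    · exact Or.inl h2
    · exact Or.inr (Or.inl h2)
    · exact Or.inr (Or.inr h2)

variable (c) in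
/-- The template has an NP-hard CSP. -/
theorem npHard_tmpl : NPHardP (CSP (tmpl c)) :=
  (HardPr.trans (Pr' := fun _ => True) hardPr_SAT3b poly_red (fun _ _ => trivial)
    (fun _ h => red_correct h.2.1)).toHardI.toNPHardP

end Pool.Agent.U94.TC
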