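import Pool.Agent.NPC.Classes

/-!
# Type clones and tractability: definitions

Relational structures, homogeneity, finite boundedness, the Ramsey property, reducts, constraint
satisfaction problems, canonical functions and type clones.
-/

set_option autoImplicit false

namespace Pool.Agent.U94.TC

open Pool.Agent.NPC

/-- A relational structure with domain `A`; the relation symbols are the elements of `ι`, and the
symbol `i` has arity `ar i`. -/
abbrev Str (ι : Type) (ar : ι → ℕ) (A : Type) : Type := ∀ i : ι, Set (Fin (ar i) → A)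

variable {A B ι : Type} {ar : ι → ℕ}

/-- The structure `𝔸` embeds into the structure `𝔹`. -/
def Embeds (𝔸 : Str ι ar A) (𝔹 : Str ι ar B) : Prop :=
  ∃ e : A → B, Function.Injective e ∧ ∀ (i : ι) (v : Fin (ar i) → A), v ∈ 𝔸 i ↔ (fun j => e (v j)) ∈ 𝔹 i

/-- The structure `𝔹` is finitely bounded: there are finitely many finite structures such that a
finite structure embeds into `𝔹` if and only if none of them embeds into it. -/
def FinitelyBounded (𝔹 : Str ι ar B) : Prop :=
  ∃ (N : ℕ) (n : Fin N → ℕ) (F : ∀ b : Fin N, Str ι ar (Fin (n b))),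
    ∀ (k : ℕ) (𝔸 : Str ι ar (Fin k)), Embeds 𝔸 𝔹 ↔ ∀ b, ¬ Embeds (F b) 𝔸

/-- `g` is an automorphism of `𝔹`. -/
def IsAut (𝔹 : Str ι ar B) (g : Equiv.Perm B) : Prop :=
  ∀ (i : ι) (v : Fin (ar i) → B), v ∈ 𝔹 i ↔ (fun j => g (v j)) ∈ 𝔹 i

/-- Every isomorphism between finite substructures extends to an automorphism. -/
def Homogeneous (𝔹 : Str ι ar B) : Prop :=
  ∀ (S : Finset B) (e : S → B), Function.Injective e →
    (∀ (i : ι) (v : Fin (ar i) → S), (fun j => (v j : B)) ∈ 𝔹 i ↔ (fun j => e (v j)) ∈ 𝔹 i) →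
      ∃ g : Equiv.Perm B, IsAut 𝔹 g ∧ ∀ s : S, g s = e s

/-- `r` is a linear order (strict or reflexive). -/
def IsLinOrd (r : B → B → Prop) : Prop :=
  (∀ x y z, r x y → r y z → r x z) ∧ (∀ x y, r x y → r y x → x = y) ∧
    (∀ x y, x ≠ y → r x y ∨ r y x) ∧ ((∀ x, r x x) ∨ (∀ x, ¬ r x x))

/-- One of the relations of `𝔹` is a linear order of the domain. -/
def Ordered (𝔹 : Str ι ar B) : Prop :=
  ∃ i : ι, ar i = 2 ∧
    IsLinOrd (fun x y : B => (fun j : Fin (ar i) => if (j : ℕ) = 0 then x else y) ∈ 𝔹 i)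

/-- The substructures of `𝔹` on `S` and on `T` are isomorphic. -/
def IsoSub (𝔹 : Str ι ar B) (S T : Finset B) : Prop :=
  ∃ e : S ≃ T, ∀ (i : ι) (v : Fin (ar i) → S),
    (fun j => (v j : B)) ∈ 𝔹 i ↔ (fun j => (e (v j) : B)) ∈ 𝔹 i

/-- The class of the finite substructures of `𝔹` has the Ramsey property: for all finite
substructures `S`, `T` there is a finite substructure `U` such that for each colouring of the copies
of `S` in `U` with two colours there is a copy `T'` of `T` in `U` such that all copies of `S` in `T'`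
have the same colour. -/
def Ramsey (𝔹 : Str ι ar B) : Prop :=
  ∀ S T : Finset B, ∃ U : Finset B, ∀ χ : Finset B → Bool, ∃ T' ⊆ U, IsoSub 𝔹 T T' ∧
    ∀ S₁ ⊆ T', ∀ S₂ ⊆ T', IsoSub 𝔹 S S₁ → IsoSub 𝔹 S S₂ → χ S₁ = χ S₂

/-- The first-order language with the relation symbols `i : ι`. -/
def lang (ar : ι → ℕ) : FirstOrder.Language := ⟨fun _ => Empty, fun n => {i : ι // ar i = n}⟩

/-- `𝔹` as a structure for this language. -/
@[reducible]
def toStructure (𝔹 : Str ι ar B) : (lang ar).Structure B where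
  funMap f := f.elim
  RelMap r v := (fun j => v (Fin.cast r.2 j)) ∈ 𝔹 r.1

/-- The structure `Γ` on the domain of `𝔹` is a reduct of `𝔹`: all its relations are first-order
definable in `𝔹`, without parameters. -/
def IsReduct (𝔹 : Str ι ar B) {κ : Type} {arΓ : κ → ℕ} (Γ : Str κ arΓ B) : Prop :=
  ∀ j : κ, ∃ φ : (lang ar).Formula (Fin (arΓ j)), ∀ v : Fin (arΓ j) → B,
    v ∈ Γ j ↔ @FirstOrder.Language.Formula.Realize (lang ar) B (toStructure 𝔹) _ φ v

/-! ### Constraint satisfaction problems -/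

/-- Instances of constraint satisfaction problems: finite structures. The domain is
`{0, ..., n - 1}`, where `n` (given in unary) is the length of the first component, and the second
component is the list of all `(i, l)` such that the relation number `i` holds for the tuple `l`. -/
abbrev Inst : Type := List Unit × List (ℕ × List ℕ)

/-- The instance is a structure with relations of the arities `ar 0, ..., ar (t - 1)`. -/
def IsInst {t : ℕ} (ar : Fin t → ℕ) (I : Inst) : Prop :=
  ∀ p ∈ I.2, (∃ i : Fin t, (i : ℕ) = p.1 ∧ p.2.length = ar i) ∧ ∀ a ∈ p.2, a < I.1.length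

/-- The constraint satisfaction problem of the structure `𝔸` with finitely many relations: is there
a homomorphism from the given finite structure to `𝔸`? -/
def CSP {t : ℕ} {ar : Fin t → ℕ} (𝔸 : Str (Fin t) ar A) (I : Inst) : Prop :=
  IsInst ar I ∧ ∃ h : Fin I.1.length → A, ∀ (i : Fin t) (u : Fin (ar i) → Fin I.1.length),
    ((i : ℕ), List.ofFn (fun j => (u j : ℕ))) ∈ I.2 → (fun j => h (u j)) ∈ 𝔸 i

/-- `CSP(Γ)` is tractable: for all finitely many relations of `Γ` the CSP of the structure with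
these relations is in `P`. -/
def Tractable {κ : Type} {arΓ : κ → ℕ} (Γ : Str κ arΓ B) : Prop :=
  ∀ (t : ℕ) (e : Fin t → κ), InPP (CSP (t := t) (ar := fun i => arΓ (e i)) (fun i => Γ (e i)))

/-- The operation `f` preserves the relation `R`. -/
def Preserves {k r : ℕ} (f : (Fin k → A) → A) (R : Set (Fin r → A)) : Prop :=
  ∀ t : Fin k → Fin r → A, (∀ i, t i ∈ R) → (fun j => f (fun i => t i j)) ∈ R

/-- The clone on `A` whose `k`-ary operations are the members of `C k`, `k ≥ 1`, corresponds to a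
tractable CSP: for every structure on `A` with finitely many relations, all of them preserved by
every operation of the clone, the CSP is in `P`. -/
def CorrespondsToTractable (C : ∀ k : ℕ, Set ((Fin k → A) → A)) : Prop :=
  ∀ (t : ℕ) (ar : Fin t → ℕ) (𝕊 : Str (Fin t) ar A),
    (∀ k, 1 ≤ k → ∀ F ∈ C k, ∀ i, Preserves F (𝕊 i)) → InPP (CSP 𝕊)

/-! ### Types and type clones -/

/-- The tuples `a` and `b` have the same type in `(𝔹, c)`: some automorphism of `𝔹` which fixes
the elements `c i` maps `a` to `b`. (In a homogeneous structure with a finite signature this is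
the same as satisfying the same first-order formulas with the parameters `c`.) -/
def SameType (𝔹 : Str ι ar B) {n : ℕ} (c : Fin n → B) {m : ℕ} (a b : Fin m → B) : Prop :=
  ∃ g : Equiv.Perm B, IsAut 𝔹 g ∧ (∀ i, g (c i) = c i) ∧ ∀ j, g (a j) = b j

theorem IsAut.symm {𝔹 : Str ι ar B} {g : Equiv.Perm B} (h : IsAut 𝔹 g) : IsAut 𝔹 g.symm := by
  intro i v
  rw [h i (fun j => g.symm (v j))]
  simp

theorem IsAut.trans {𝔹 : Str ι ar B} {g g' : Equiv.Perm B} (h : IsAut 𝔹 g) (h' : IsAut 𝔹 g') :
    IsAut 𝔹 (g.trans g') := fun i v => (h i v).trans (h' i _)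

theorem IsAut.refl {𝔹 : Str ι ar B} : IsAut 𝔹 (Equiv.refl B) := fun _ _ => Iff.rfl

theorem SameType.refl {𝔹 : Str ι ar B} {n : ℕ} {c : Fin n → B} {m : ℕ} (a : Fin m → B) :
    SameType 𝔹 c a a := ⟨Equiv.refl B, IsAut.refl, fun _ => rfl, fun _ => rfl⟩

theorem SameType.symm {𝔹 : Str ι ar B} {n : ℕ} {c : Fin n → B} {m : ℕ} {a b : Fin m → B}
    (h : SameType 𝔹 c a b) : SameType 𝔹 c b a := by
  obtain ⟨g, hg, hc, hab⟩ := h
  refine ⟨g.symm, hg.symm, fun i => ?_, fun j => ?_⟩
  · rw [Equiv.symm_apply_eq, hc]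
  · rw [Equiv.symm_apply_eq, hab]

theorem SameType.trans {𝔹 : Str ι ar B} {n : ℕ} {c : Fin n → B} {m : ℕ} {a b d : Fin m → B}
    (h : SameType 𝔹 c a b) (h' : SameType 𝔹 c b d) : SameType 𝔹 c a d := by
  obtain ⟨g, hg, hc, hab⟩ := h
  obtain ⟨g', hg', hc', hab'⟩ := h'
  refine ⟨g.trans g', hg.trans hg', fun i => ?_, fun j => ?_⟩
  · rw [Equiv.trans_apply, hc, hc']
  · rw [Equiv.trans_apply, hab, hab']

/-- Having the same type is an equivalence relation. -/
def typeSetoid (𝔹 : Str ι ar B) {n : ℕ} (c : Fin n → B) (m : ℕ) : Setoid (Fin m → B) :=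
  ⟨SameType 𝔹 c, SameType.refl, SameType.symm, SameType.trans⟩

/-- The set of the types of `m`-tuples in `(𝔹, c)`. -/
def Ty (𝔹 : Str ι ar B) {n : ℕ} (c : Fin n → B) (m : ℕ) : Type := Quotient (typeSetoid 𝔹 c m)

/-- The type of the tuple `a`. -/
def ty (𝔹 : Str ι ar B) {n : ℕ} (c : Fin n → B) {m : ℕ} (a : Fin m → B) : Ty 𝔹 c m :=
  Quotient.mk (typeSetoid 𝔹 c m) a

/-- The function `f` is canonical for `(𝔹, c)`: for every `m` the type of `f (a 0, ..., a (k - 1))`
(computed coordinatewise) only depends on the types of the `m`-tuples `a 0, ..., a (k - 1)`. -/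
def Canonical (𝔹 : Str ι ar B) {n : ℕ} (c : Fin n → B) {k : ℕ} (f : (Fin k → B) → B) : Prop :=
  ∀ (m : ℕ) (a b : Fin k → Fin m → B), (∀ i, SameType 𝔹 c (a i) (b i)) →
    SameType 𝔹 c (fun j => f (fun i => a i j)) (fun j => f (fun i => b i j))

/-- The `k`-ary operations of the type clone: the maps on the set of the types of `m`-tuples induced
by the canonical polymorphisms of `Γ`. -/
def typeClone (𝔹 : Str ι ar B) {n : ℕ} (c : Fin n → B) {κ : Type} {arΓ : κ → ℕ} (Γ : Str κ arΓ B)
    (m k : ℕ) : Set ((Fin k → Ty 𝔹 c m) → Ty 𝔹 c m) :=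
  {F | ∃ f : (Fin k → B) → B, (∀ i, Preserves f (Γ i)) ∧ Canonical 𝔹 c f ∧
    ∀ a : Fin k → Fin m → B, F (fun i => ty 𝔹 c (a i)) = ty 𝔹 c (fun j => f (fun i => a i j))}

/-- The maximal arity. -/
def maxArity {s : ℕ} (ar : Fin s → ℕ) : ℕ := Finset.univ.sup ar

/-- **Question 1**: for every finitely bounded, ordered, homogeneous Ramsey structure `𝔹` with a
finite relational signature and countable domain, and every reduct `Γ` of `𝔹` with a tractable CSP
there is a tuple `c` such that the type clone of `Γ` corresponds to a tractable CSP. -/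
def Question1 : Prop :=
  ∀ (D : Type) [Countable D] (s : ℕ) (ar : Fin s → ℕ) (𝔹 : Str (Fin s) ar D) (κ : Type)
    (arΓ : κ → ℕ) (Γ : Str κ arΓ D), FinitelyBounded 𝔹 → Ordered 𝔹 → Homogeneous 𝔹 → Ramsey 𝔹 →
      IsReduct 𝔹 Γ → Tractable Γ →
        ∃ (n : ℕ) (c : Fin n → D), CorrespondsToTractable (typeClone 𝔹 c Γ (maxArity ar))

/-- `P = NP`. -/
def PeqNP : Prop := ∀ L : Set (List Bool), InNP L → InP L

end Pool.Agent.U94.TC
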