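import Pool.Agent.U94.TC.Rat

/-!
# Canonical operations which preserve the order have a dictator on products of intervals
-/

set_option autoImplicit false

namespace Pool.Agent.U94.TC

section Dict

variable {k : ℕ} (X : Fin k → Set ℚ) (f : (Fin k → ℚ) → ℚ)

/-- The pair `(u, v)` of points of the box has the pattern `A`: `u i < v i` for `i ∈ A`, and
`v i < u i` for the other `i`. -/
structure Pat (A : Finset (Fin k)) (u v : Fin k → ℚ) : Prop where
  left : ∀ i, u i ∈ X i
  right : ∀ i, v i ∈ X i
  lt : ∀ i, i ∈ A → u i < v i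
  gt : ∀ i, i ∉ A → v i < u i

variable {X} {f}

/-- A box, and an operation which preserves the order and whose behaviour on pairs of points of the
box only depends on the pattern. -/
structure Good (X : Fin k → Set ℚ) (f : (Fin k → ℚ) → ℚ) : Prop where
  below : ∀ i, ∀ x ∈ X i, ∃ y ∈ X i, y < x
  above : ∀ i, ∀ x ∈ X i, ∃ y ∈ X i, x < y
  between : ∀ i, ∀ x ∈ X i, ∀ y ∈ X i, x < y → ∃ z ∈ X i, x < z ∧ z < y
  mono : ∀ u v, (∀ i, u i < v i) → f u < f v
  can_lt : ∀ A u v u' v', Pat X A u v → Pat X A u' v' → f u < f v → f u' < f v'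
  can_eq : ∀ A u v u' v', Pat X A u v → Pat X A u' v' → f u = f v → f u' = f v'

/-- The winning sets. -/
def Win (X : Fin k → Set ℚ) (f : (Fin k → ℚ) → ℚ) (A : Finset (Fin k)) : Prop :=
  ∀ u v, Pat X A u v → f u < f v

variable (hG : Good X f)
include hG

theorem win_of {A : Finset (Fin k)} {u v : Fin k → ℚ} (h : Pat X A u v) (h' : f u < f v) :
    Win X f A := fun _ _ h'' => hG.can_lt A u v _ _ h h'' h'

variable {u₀ : Fin k → ℚ} (hu₀ : ∀ i, u₀ i ∈ X i)
include hu₀

omit hG in
theorem exists_pat (hG : Good X f) (A : Finset (Fin k)) : ∃ u v, Pat X A u v := by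
  classical
  choose! b hb hb' using hG.below
  choose! a ha ha' using hG.above
  refine ⟨u₀, fun i => if i ∈ A then a i (u₀ i) else b i (u₀ i), hu₀, fun i => ?_, fun i hi => ?_,
    fun i hi => ?_⟩
  · by_cases hi : i ∈ A
    · simp only [hi, if_true]; exact ha i _ (hu₀ i)
    · simp only [hi, if_false]; exact hb i _ (hu₀ i)
  · simp only [hi, if_true]; exact ha' i _ (hu₀ i)
  · simp only [hi, if_false]; exact hb' i _ (hu₀ i)

theorem Win.upward {A B : Finset (Fin k)} (hA : Win X f A) (hAB : A ⊆ B) : Win X f B := by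
  classical
  obtain ⟨u, v, huv⟩ := exists_pat hu₀ hG A
  choose! a ha ha' using hG.above
  choose! c hc hc1 hc2 using hG.between
  let w : Fin k → ℚ := fun i => if i ∈ A then a i (v i) else if i ∈ B then a i (u i) else
    c i (v i) (u i)
  have hvw : ∀ i, v i < w i := by
    intro i
    by_cases hi : i ∈ A
    · simp only [w, hi, if_true]; exact ha' i _ (huv.right i)
    · by_cases hi' : i ∈ B
      · simp only [w, hi, hi', if_true, if_false]
        exact (huv.gt i hi).trans (ha' i _ (huv.left i))
      · simp only [w, hi, hi', if_false]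
        exact hc1 i _ (huv.right i) _ (huv.left i) (huv.gt i hi)
  refine win_of hG (u := u) (v := w) ⟨huv.left, fun i => ?_, fun i hi => ?_, fun i hi => ?_⟩
    ((hA u v huv).trans (hG.mono v w hvw))
  · by_cases hi : i ∈ A
    · simp only [w, hi, if_true]; exact ha i _ (huv.right i)
    · by_cases hi' : i ∈ B
      · simp only [w, hi, hi', if_true, if_false]; exact ha i _ (huv.left i)
      · simp only [w, hi, hi', if_false]
        exact hc i _ (huv.right i) _ (huv.left i) (huv.gt i hi)
  · by_cases hi1 : i ∈ A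
    · exact (huv.lt i hi1).trans (hvw i)
    · simp only [w, hi1, hi, if_true, if_false]; exact ha' i _ (huv.left i)
  · have hi1 : i ∉ A := fun h => hi (hAB h)
    simp only [w, hi1, hi, if_false]
    exact hc2 i _ (huv.right i) _ (huv.left i) (huv.gt i hi1)

theorem Win.inter {A B : Finset (Fin k)} (hA : Win X f A) (hB : Win X f B) :
    Win X f (A ∩ B) := by
  classical
  obtain ⟨u, v, huv⟩ := exists_pat hu₀ hG A
  choose! a ha ha' using hG.above
  choose! b hb hb' using hG.below
  choose! c hc hc1 hc2 using hG.between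
  let w : Fin k → ℚ := fun i => if i ∈ A then (if i ∈ B then a i (v i) else b i (u i)) else
    (if i ∈ B then c i (v i) (u i) else b i (v i))
  have hw : ∀ i, w i ∈ X i := by
    intro i
    by_cases hi : i ∈ A <;> by_cases hi' : i ∈ B <;> simp only [w, hi, hi', if_true, if_false]
    · exact ha i _ (huv.right i)
    · exact hb i _ (huv.left i)
    · exact hc i _ (huv.right i) _ (huv.left i) (huv.gt i hi)
    · exact hb i _ (huv.right i)
  have h1 : Pat X B v w := by
    refine ⟨huv.right, hw, fun i hi => ?_, fun i hi => ?_⟩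
    · by_cases hi' : i ∈ A <;> simp only [w, hi, hi', if_true, if_false]
      · exact ha' i _ (huv.right i)
      · exact hc1 i _ (huv.right i) _ (huv.left i) (huv.gt i hi')
    · by_cases hi' : i ∈ A <;> simp only [w, hi, hi', if_true, if_false]
      · exact (hb' i _ (huv.left i)).trans (huv.lt i hi')
      · exact hb' i _ (huv.right i)
  have h2 : Pat X (A ∩ B) u w := by
    refine ⟨huv.left, hw, fun i hi => ?_, fun i hi => ?_⟩
    · rw [Finset.mem_inter] at hi
      exact (huv.lt i hi.1).trans (h1.lt i hi.2)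
    · rw [Finset.mem_inter] at hi
      by_cases hi1 : i ∈ A
      · have hi2 : i ∉ B := fun h => hi ⟨hi1, h⟩
        simp only [w, hi1, hi2, if_true, if_false]
        exact hb' i _ (huv.left i)
      · by_cases hi2 : i ∈ B <;> simp only [w, hi1, hi2, if_true, if_false]
        · exact hc2 i _ (huv.right i) _ (huv.left i) (huv.gt i hi1)
        · exact (hb' i _ (huv.right i)).trans (huv.gt i hi1)
  exact win_of hG h2 ((hA u v huv).trans (hB v w h1))

omit hu₀ in
theorem Pat.compl {A : Finset (Fin k)} {u v : Fin k → ℚ} (h : Pat X A u v) :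
    Pat X Aᶜ v u :=
  ⟨h.right, h.left, fun i hi => h.gt i (Finset.mem_compl.1 hi),
    fun i hi => h.lt i (by simpa using hi)⟩

theorem ne_of_pat {A : Finset (Fin k)} {u v : Fin k → ℚ} (h : Pat X A u v) : f u ≠ f v := by
  classical
  intro heq
  choose! a ha ha' using hG.above
  choose! c hc hc1 hc2 using hG.between
  let w : Fin k → ℚ := fun i => if i ∈ A then c i (u i) (v i) else a i (u i)
  have hw : ∀ i, w i ∈ X i := by
    intro i
    by_cases hi : i ∈ A <;> simp only [w, hi, if_true, if_false]
    · exact hc i _ (h.left i) _ (h.right i) (h.lt i hi)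
    · exact ha i _ (h.left i)
  have h1 : Pat X Aᶜ v w := by
    refine ⟨h.right, hw, fun i hi => ?_, fun i hi => ?_⟩
    · rw [Finset.mem_compl] at hi
      simp only [w, hi, if_false]
      exact (h.gt i hi).trans (ha' i _ (h.left i))
    · rw [Finset.mem_compl, not_not] at hi
      simp only [w, hi, if_true]
      exact hc2 i _ (h.left i) _ (h.right i) (h.lt i hi)
  have h2 := hG.can_eq _ v u v w (Pat.compl hG h) h1 heq.symm
  have h3 : f u < f w := by
    apply hG.mono
    intro i
    by_cases hi : i ∈ A <;> simp only [w, hi, if_true, if_false]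
    · exact hc1 i _ (h.left i) _ (h.right i) (h.lt i hi)
    · exact ha' i _ (h.left i)
  rw [heq, h2] at h3
  exact lt_irrefl _ h3

theorem win_or (A : Finset (Fin k)) : Win X f A ∨ Win X f Aᶜ := by
  obtain ⟨u, v, huv⟩ := exists_pat hu₀ hG A
  rcases lt_trichotomy (f u) (f v) with h | h | h
  · exact Or.inl (win_of hG huv h)
  · exact absurd h (ne_of_pat hG hu₀ huv)
  · exact Or.inr (win_of hG (Pat.compl hG huv) h)

theorem not_win_empty : ¬ Win X f ∅ := by
  intro h
  obtain ⟨u, v, huv⟩ := exists_pat hu₀ hG ∅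
  have h1 := h u v huv
  have h2 := hG.mono v u (fun i => huv.gt i (by simp))
  exact lt_asymm h1 h2

/-- There is a dictator. -/
theorem exists_dictator : ∃ d : Fin k, ∀ u v : Fin k → ℚ, (∀ i, u i ∈ X i) → (∀ i, v i ∈ X i) →
    (∀ i, u i ≠ v i) → (f u < f v ↔ u d < v d) ∧ f u ≠ f v := by
  classical
  have hne : ∃ n, ∃ A : Finset (Fin k), Win X f A ∧ A.card = n := by
    rcases win_or hG hu₀ ∅ with h | h
    · exact ⟨_, _, h, rfl⟩
    · exact ⟨_, _, h, rfl⟩
  obtain ⟨A, hA, hcard⟩ := Nat.find_spec hne
  have hmin : ∀ B : Finset (Fin k), Win X f B → A.card ≤ B.card := by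
    intro B hB
    rw [hcard]
    exact Nat.find_min' hne ⟨B, hB, rfl⟩
  have hA0 : A.Nonempty := by
    rw [Finset.nonempty_iff_ne_empty]
    rintro rfl
    exact not_win_empty hG hu₀ hA
  obtain ⟨d, hd⟩ := hA0
  have hAd : Win X f {d} := by
    rcases win_or hG hu₀ {d} with h | h
    · exact h
    · exfalso
      have h1 := Win.inter hG hu₀ hA h
      have h2 := hmin _ h1
      have h3 : A ∩ {d}ᶜ ⊂ A := by
        rw [Finset.ssubset_iff_of_subset Finset.inter_subset_left]
        exact ⟨d, hd, by simp⟩
      have := Finset.card_lt_card h3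
      omega
  refine ⟨d, fun u v hu hv huv => ?_⟩
  let P : Finset (Fin k) := Finset.univ.filter (fun i => u i < v i)
  have hP : Pat X P u v := by
    refine ⟨hu, hv, fun i hi => (Finset.mem_filter.1 hi).2, fun i hi => ?_⟩
    rw [Finset.mem_filter] at hi
    rcases lt_or_gt_of_ne (huv i) with h | h
    · exact absurd ⟨Finset.mem_univ _, h⟩ hi
    · exact h
  refine ⟨⟨fun h => ?_, fun h => ?_⟩, ne_of_pat hG hu₀ hP⟩
  · by_contra hd'
    have h1 : {d} ⊆ Pᶜ := by
      intro i hi
      rw [Finset.mem_singleton] at hi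
      rw [hi, Finset.mem_compl, Finset.mem_filter]
      exact fun h => hd' h.2
    have h2 := Win.upward hG hu₀ hAd h1
    exact lt_asymm h (h2 v u (Pat.compl hG hP))
  · have h1 : {d} ⊆ P := by
      intro i hi
      rw [Finset.mem_singleton] at hi
      rw [hi, Finset.mem_filter]
      exact ⟨Finset.mem_univ _, h⟩
    exact Win.upward hG hu₀ hAd h1 u v hP

end Dict

end Pool.Agent.U94.TC
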