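import Pool.Agent.U94.TC.Defs
import Pool.Agent.H507R3.RamAll

/-!
# The rational numbers with the strict order
-/

set_option autoImplicit false

namespace Pool.Agent.U94.TC

open Order

/-- The structure `(ℚ; <)`. -/
def ratStr : Str (Fin 1) (fun _ => 2) ℚ := fun _ => {v | v 0 < v 1}

theorem mem_ratStr {i : Fin 1} {v : Fin 2 → ℚ} : v ∈ ratStr i ↔ v 0 < v 1 := Iff.rfl

theorem isAut_of_strictMono {g : Equiv.Perm ℚ} (h : StrictMono g) : IsAut ratStr g := by
  intro i v
  change v 0 < v 1 ↔ g (v 0) < g (v 1)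
  exact h.lt_iff_lt.symm

theorem IsAut.strictMono {g : Equiv.Perm ℚ} (h : IsAut ratStr g) : StrictMono g := by
  intro x y hxy
  exact (h 0 ![x, y]).1 hxy

/-- A finite partial order-isomorphism extends to an automorphism. -/
theorem exists_orderIso (s : Finset (ℚ × ℚ))
    (hs : ∀ p ∈ s, ∀ q ∈ s, cmp (Prod.fst p) (Prod.fst q) = cmp (Prod.snd p) (Prod.snd q)) :
    ∃ g : ℚ ≃o ℚ, ∀ p ∈ s, g p.1 = p.2 := by
  let f0 : PartialIso ℚ ℚ := ⟨s, hs⟩
  let to_cofinal : ℚ ⊕ ℚ → Cofinal (PartialIso ℚ ℚ) := fun p =>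
    Sum.recOn p (PartialIso.definedAtLeft ℚ) (PartialIso.definedAtRight ℚ)
  let our_ideal : Ideal (PartialIso ℚ ℚ) := idealOfCofinals f0 to_cofinal
  let F a := PartialIso.funOfIdeal a our_ideal (cofinal_meets_idealOfCofinals _ to_cofinal (Sum.inl a))
  let G b := PartialIso.invOfIdeal b our_ideal (cofinal_meets_idealOfCofinals _ to_cofinal (Sum.inr b))
  let g : ℚ ≃o ℚ := OrderIso.ofCmpEqCmp (fun a => (F a).val) (fun b => (G b).val) fun a b => by
      rcases (F a).prop with ⟨f, hf, ha⟩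
      rcases (G b).prop with ⟨g, hg, hb⟩
      rcases our_ideal.directed _ hf _ hg with ⟨m, _, fm, gm⟩
      exact m.prop (a, _) (fm ha) (_, b) (gm hb)
  refine ⟨g, ?_⟩
  rintro ⟨a, b⟩ hab
  obtain ⟨f, hf, ha⟩ := (F a).prop
  have h0 : f0 ∈ our_ideal := mem_idealOfCofinals _ _
  obtain ⟨m, _, fm, gm⟩ := our_ideal.directed _ hf _ h0
  have h1 := m.prop (a, (F a).val) (fm ha) (a, b) (gm hab)
  have h2 : cmp a a = Ordering.eq := cmp_self_eq_eq a
  have h3 : cmp (F a).val b = Ordering.eq := by rw [← h1]; exact h2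
  exact (cmp_eq_eq_iff _ _).1 h3

theorem cmp_congr {x y x' y' : ℚ} (h1 : x < y ↔ x' < y') (h2 : y < x ↔ y' < x') :
    cmp x y = cmp x' y' := by
  unfold cmp cmpUsing
  simp only [h1, h2]

theorem homogeneous_rat : Homogeneous ratStr := by
  classical
  intro S e _ h
  obtain ⟨g, hg⟩ := exists_orderIso (S.attach.image (fun x : S => ((x : ℚ), e x))) (by
    intro p hp q hq
    rw [Finset.mem_image] at hp hq
    obtain ⟨x, -, rfl⟩ := hp
    obtain ⟨y, -, rfl⟩ := hq
    have h1 := h 0 ![x, y]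
    have h2 := h 0 ![y, x]
    exact cmp_congr h1 h2)
  refine ⟨g.toEquiv, isAut_of_strictMono g.strictMono, fun x => ?_⟩
  exact hg ((x : ℚ), e x) (Finset.mem_image.2 ⟨x, Finset.mem_attach _ _, rfl⟩)

theorem sameType_rat {n m : ℕ} {c : Fin n → ℚ} {a b : Fin m → ℚ}
    (h1 : ∀ i j, a i < a j ↔ b i < b j) (h2 : ∀ i l, a i < c l ↔ b i < c l)
    (h3 : ∀ i l, c l < a i ↔ c l < b i) : SameType ratStr c a b := by
  classical
  obtain ⟨g, hg⟩ := exists_orderIso (Finset.univ.image (fun i => (a i, b i)) ∪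
      Finset.univ.image (fun l => (c l, c l))) (by
    intro p hp q hq
    rw [Finset.mem_union, Finset.mem_image, Finset.mem_image] at hp hq
    rcases hp with ⟨i, -, rfl⟩ | ⟨i, -, rfl⟩ <;> rcases hq with ⟨j, -, rfl⟩ | ⟨j, -, rfl⟩
    · exact cmp_congr (h1 i j) (h1 j i)
    · exact cmp_congr (h2 i j) (h3 i j)
    · exact cmp_congr (h3 j i) (h2 j i)
    · rfl)
  refine ⟨g.toEquiv, isAut_of_strictMono g.strictMono, fun l => ?_, fun i => ?_⟩
  · exact hg (c l, c l) (Finset.mem_union_right _ (Finset.mem_image.2 ⟨l, Finset.mem_univ _, rfl⟩))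
  · exact hg (a i, b i) (Finset.mem_union_left _ (Finset.mem_image.2 ⟨i, Finset.mem_univ _, rfl⟩))

theorem SameType.lt_iff {n m : ℕ} {c : Fin n → ℚ} {a b : Fin m → ℚ}
    (h : SameType ratStr c a b) (i j : Fin m) : a i < a j ↔ b i < b j := by
  obtain ⟨g, hg, -, hab⟩ := h
  rw [← hab, ← hab, hg.strictMono.lt_iff_lt]

theorem SameType.lt_const {n m : ℕ} {c : Fin n → ℚ} {a b : Fin m → ℚ}
    (h : SameType ratStr c a b) (i : Fin m) (l : Fin n) : a i < c l ↔ b i < c l := by
  obtain ⟨g, hg, hc, hab⟩ := h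
  rw [← hab]
  conv_rhs => rw [← hc l]
  rw [hg.strictMono.lt_iff_lt]

theorem SameType.const_lt {n m : ℕ} {c : Fin n → ℚ} {a b : Fin m → ℚ}
    (h : SameType ratStr c a b) (i : Fin m) (l : Fin n) : c l < a i ↔ c l < b i := by
  obtain ⟨g, hg, hc, hab⟩ := h
  rw [← hab]
  conv_rhs => rw [← hc l]
  rw [hg.strictMono.lt_iff_lt]

theorem ordered_rat : Ordered ratStr := by
  refine ⟨0, rfl, ?_⟩
  have h : ∀ x y : ℚ, ((fun j : Fin 2 => if (j : ℕ) = 0 then x else y) ∈ ratStr 0) = (x < y) := by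
    intro x y
    simp [ratStr]
  simp only [h]
  exact ⟨fun x y z => lt_trans, fun x y h1 h2 => absurd h1 h2.asymm, fun x y => lt_or_gt_of_ne,
    Or.inr fun x => lt_irrefl x⟩

theorem reduct_rat : IsReduct ratStr ratStr := by
  intro j
  let R : (lang (fun _ : Fin 1 => 2)).Relations 2 := (⟨j, rfl⟩ : {i : Fin 1 // 2 = 2})
  refine ⟨FirstOrder.Language.Relations.formula R (fun i => FirstOrder.Language.Term.var i),
    fun v => ?_⟩
  let _ := toStructure ratStr
  have h := FirstOrder.Language.Formula.realize_rel (L := lang (fun _ : Fin 1 => 2)) (M := ℚ)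
    (R := R) (v := v) (ts := fun i => FirstOrder.Language.Term.var i)
  exact h.symm

/-- Two finite sets of rationals with the same number of elements carry isomorphic substructures. -/
theorem isoSub_of_card {S T : Finset ℚ} (h : S.card = T.card) : IsoSub ratStr S T := by
  refine ⟨((S.orderIsoOfFin h).symm.trans (T.orderIsoOfFin rfl)).toEquiv, fun i v => ?_⟩
  change ((v 0 : S) : ℚ) < v 1 ↔ (((S.orderIsoOfFin h).symm.trans (T.orderIsoOfFin rfl) (v 0) : T) : ℚ) <
    ((S.orderIsoOfFin h).symm.trans (T.orderIsoOfFin rfl)) (v 1)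
  rw [Subtype.coe_lt_coe, Subtype.coe_lt_coe, OrderIso.lt_iff_lt]

theorem card_of_isoSub {S T : Finset ℚ} (h : IsoSub ratStr S T) : S.card = T.card := by
  obtain ⟨e, -⟩ := h
  have := Fintype.card_congr e
  simpa using this

theorem ramsey_rat : Ramsey ratStr := by
  classical
  intro S T
  obtain ⟨N, hN⟩ := Pool.Agent.H507R3.RamAll.ramsey_finset Bool S.card T.card
  let f : ℕ ↪ ℚ := Nat.castEmbedding
  refine ⟨(Finset.range N).map f, fun χ => ?_⟩
  obtain ⟨T₀, hT₀, hc, k, hk⟩ := hN (Finset.range N) (fun Q => χ (Q.map f)) (by simp)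
  refine ⟨T₀.map f, Finset.map_subset_map.2 hT₀, isoSub_of_card (by rw [Finset.card_map, hc]), ?_⟩
  have key : ∀ S₁ ⊆ T₀.map f, IsoSub ratStr S S₁ → χ S₁ = k := by
    intro S₁ hS₁ hiso
    obtain ⟨Q, hQ, rfl⟩ := Finset.subset_map_iff.1 hS₁
    exact hk Q hQ (by rw [← Finset.card_map f, card_of_isoSub hiso])
  intro S₁ h1 S₂ h2 h3 h4
  rw [key S₁ h1 h3, key S₂ h2 h4]

/-- A finite structure embeds into `(ℚ; <)` if and only if it is a strict linear order. -/
theorem embeds_rat_iff {A : Type} [Finite A] (𝔸 : Str (Fin 1) (fun _ => 2) A) :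
    Embeds 𝔸 ratStr ↔ (∀ x y z, ![x, y] ∈ 𝔸 0 → ![y, z] ∈ 𝔸 0 → ![x, z] ∈ 𝔸 0) ∧
      (∀ x, ![x, x] ∉ 𝔸 0) ∧ ∀ x y, x ≠ y → ![x, y] ∈ 𝔸 0 ∨ ![y, x] ∈ 𝔸 0 := by
  classical
  constructor
  · rintro ⟨e, hinj, he⟩
    have h : ∀ x y, ![x, y] ∈ 𝔸 0 ↔ e x < e y := fun x y => he 0 ![x, y]
    refine ⟨fun x y z h1 h2 => ?_, fun x h1 => ?_, fun x y hxy => ?_⟩
    · rw [h] at *
      exact h1.trans h2
    · rw [h] at h1
      exact lt_irrefl _ h1
    · rw [h, h]
      exact lt_or_gt_of_ne (hinj.ne hxy)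
  · rintro ⟨h1, h2, h3⟩
    have := Fintype.ofFinite A
    let r : A → ℕ := fun x => (Finset.univ.filter (fun y => ![y, x] ∈ 𝔸 0)).card
    have hr : ∀ x y, ![x, y] ∈ 𝔸 0 → r x < r y := by
      intro x y hxy
      apply Finset.card_lt_card
      rw [Finset.ssubset_iff_of_subset]
      · exact ⟨x, by simpa using hxy, by simpa using h2 x⟩
      · intro z hz
        rw [Finset.mem_filter] at hz ⊢
        exact ⟨Finset.mem_univ _, h1 _ _ _ hz.2 hxy⟩
    have hr' : ∀ x y, ![x, y] ∈ 𝔸 0 ↔ r x < r y := by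
      intro x y
      refine ⟨hr x y, fun hlt => ?_⟩
      by_cases hxy : x = y
      · subst hxy
        exact absurd hlt (lt_irrefl _)
      · rcases h3 x y hxy with h | h
        · exact h
        · exact absurd hlt (hr _ _ h).asymm
    refine ⟨fun x => (r x : ℚ), ?_, fun i v => ?_⟩
    · intro x y hxy
      by_contra hne
      have hxy0 : (r x : ℚ) = r y := hxy
      have hxy' : r x = r y := by exact_mod_cast hxy0
      rcases h3 x y hne with h | h
      · have := hr _ _ h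
        omega
      · have := hr _ _ h
        omega
    · have hi : i = 0 := Subsingleton.elim _ _
      subst hi
      have hv : v = ![v 0, v 1] := by
        funext j
        fin_cases j <;> rfl
      rw [mem_ratStr]
      conv_lhs => rw [hv]
      rw [hr']
      change r (v 0) < r (v 1) ↔ (r (v 0) : ℚ) < r (v 1)
      exact_mod_cast Iff.rfl

theorem inj_two {A : Type} {x y : A} (h : x ≠ y) : Function.Injective ![x, y] := by
  intro a b hab
  fin_cases a <;> fin_cases b
  · rfl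
  · exact absurd hab h
  · exact absurd hab.symm h
  · rfl

theorem inj_three {A : Type} {x y z : A} (h : x ≠ y) (h' : y ≠ z) (h'' : x ≠ z) :
    Function.Injective ![x, y, z] := by
  intro a b hab
  fin_cases a <;> fin_cases b
  · rfl
  · exact absurd hab h
  · exact absurd hab h''
  · exact absurd hab.symm h
  · rfl
  · exact absurd hab h'
  · exact absurd hab.symm h''
  · exact absurd hab.symm h'
  · rfl

theorem finitelyBounded_rat : FinitelyBounded ratStr := by
  classical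
  let Bad : Type := Σ k : Fin 4, {F : Str (Fin 1) (fun _ => 2) (Fin k) // ¬ Embeds F ratStr}
  have : Finite Bad := by
    have : ∀ k : Fin 4, Finite (Str (Fin 1) (fun _ => 2) (Fin k)) := fun k => by
      unfold Str
      infer_instance
    infer_instance
  obtain ⟨N, ⟨e⟩⟩ := Finite.exists_equiv_fin Bad
  refine ⟨N, fun b => ((e.symm b).1 : ℕ), fun b => (e.symm b).2.1, fun k 𝔸 => ⟨?_, fun h => ?_⟩⟩
  · rintro ⟨f, hf, hf'⟩ b ⟨g, hg, hg'⟩
    exact (e.symm b).2.2 ⟨fun x => f (g x), hf.comp hg, fun i v => (hg' i v).trans (hf' i _)⟩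
  · -- all the substructures with at most three elements embed
    have key : ∀ (m : ℕ) (hm : m < 4) (g : Fin m → Fin k), Function.Injective g →
        Embeds (fun i => {v : Fin 2 → Fin m | (fun j => g (v j)) ∈ 𝔸 i}) ratStr := by
      intro m hm g hg
      by_contra hcon
      let bad : Bad := ⟨⟨m, hm⟩, ⟨fun i => {v : Fin 2 → Fin m | (fun j => g (v j)) ∈ 𝔸 i}, hcon⟩⟩
      have h1 : ∀ b : Bad, b = bad → Embeds b.2.1 𝔸 := by
        rintro _ rfl
        exact ⟨g, hg, fun i v => Iff.rfl⟩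
      exact h (e bad) (h1 _ (e.symm_apply_apply bad))
    have hc : ∀ (m : ℕ) (g : Fin m → Fin k) (x y : Fin m), (fun j => g (![x, y] j)) = ![g x, g y] := by
      intro m g x y
      funext j
      fin_cases j <;> rfl
    have hirr : ∀ x, ![x, x] ∉ 𝔸 0 := by
      intro x hx
      have h1 := ((embeds_rat_iff _).1 (key 1 (by norm_num) ![x] (by
        intro a b _; exact Subsingleton.elim _ _))).2.1 0
      apply h1
      change (fun j => ![x] (![(0 : Fin 1), 0] j)) ∈ 𝔸 0
      rw [hc]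
      exact hx
    have htot : ∀ x y, x ≠ y → ![x, y] ∈ 𝔸 0 ∨ ![y, x] ∈ 𝔸 0 := by
      intro x y hxy
      have h1 := ((embeds_rat_iff _).1 (key 2 (by norm_num) ![x, y] (inj_two hxy))).2.2 0 1 (by decide)
      change (fun j => ![x, y] (![(0 : Fin 2), 1] j)) ∈ 𝔸 0 ∨
        (fun j => ![x, y] (![(1 : Fin 2), 0] j)) ∈ 𝔸 0 at h1
      rw [hc, hc] at h1
      exact h1
    have hasym : ∀ x y, ![x, y] ∈ 𝔸 0 → ![y, x] ∉ 𝔸 0 := by
      intro x y h1 h2
      have hxy : x ≠ y := by
        rintro rfl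
        exact hirr _ h1
      have h3 := (embeds_rat_iff _).1 (key 2 (by norm_num) ![x, y] (inj_two hxy))
      apply h3.2.1 0
      apply h3.1 0 1 0
      · change (fun j => ![x, y] (![(0 : Fin 2), 1] j)) ∈ 𝔸 0
        rw [hc]
        exact h1
      · change (fun j => ![x, y] (![(1 : Fin 2), 0] j)) ∈ 𝔸 0
        rw [hc]
        exact h2
    rw [embeds_rat_iff]
    refine ⟨fun x y z h1 h2 => ?_, hirr, htot⟩
    have hxy : x ≠ y := by
      rintro rfl
      exact hirr _ h1
    have hyz : y ≠ z := by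
      rintro rfl
      exact hirr _ h2
    have hxz : x ≠ z := by
      rintro rfl
      exact hasym _ _ h1 h2
    have h3 := (embeds_rat_iff _).1 (key 3 (by norm_num) ![x, y, z] (inj_three hxy hyz hxz))
    have h4 := h3.1 0 1 2 (by
      change (fun j => ![x, y, z] (![(0 : Fin 3), 1] j)) ∈ 𝔸 0
      rw [hc]
      exact h1) (by
      change (fun j => ![x, y, z] (![(1 : Fin 3), 2] j)) ∈ 𝔸 0
      rw [hc]
      exact h2)
    change (fun j => ![x, y, z] (![(0 : Fin 3), 2] j)) ∈ 𝔸 0 at h4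
    rw [hc] at h4
    exact h4

end Pool.Agent.U94.TC
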