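import Pool.Agent.U94.TC.Defs
import Pool.Agent.U94.TC.Rat
import Pool.Agent.H671R2.PolyAuto
import Pool.Agent.NPC.Dec

/-!
# Acyclicity of directed graphs is in P, and the CSPs of finite structures are in NP
-/

set_option autoImplicit false

namespace Pool.Agent.U94.TC

open Pool.Agent.NPC

/-! ### Testing instances -/

/-- The test for instances; `L` is the list of the arities. -/
def isInstB (L : List ℕ) (I : Inst) : Bool :=
  I.2.all (fun p => decide (L[p.1]? = some p.2.length) && p.2.all (fun a => decide (a < I.1.length)))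

theorem poly_isInstB (L : List ℕ) : Poly (isInstB L) := by
  unfold isInstB
  fun_prop

theorem isInstB_iff {t : ℕ} (ar : Fin t → ℕ) (I : Inst) :
    isInstB (List.ofFn ar) I = true ↔ IsInst ar I := by
  unfold isInstB IsInst
  rw [List.all_eq_true]
  refine forall₂_congr fun p _ => ?_
  rw [Bool.and_eq_true, decide_eq_true_iff, List.all_eq_true]
  refine and_congr ?_ (by simp)
  rw [List.getElem?_eq_some_iff]
  constructor
  · rintro ⟨h, h'⟩
    rw [List.getElem_ofFn] at h'
    exact ⟨⟨p.1, by simpa using h⟩, rfl, h'.symm⟩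
  · rintro ⟨i, h, h'⟩
    refine ⟨by rw [List.length_ofFn, ← h]; exact i.2, ?_⟩
    rw [List.getElem_ofFn, h']
    congr 1
    exact Fin.ext h.symm

/-! ### Acyclicity -/

/-- Keep the edges whose source is the target of an edge in `S`. -/
def step (E S : List (ℕ × List ℕ)) : List (ℕ × List ℕ) :=
  E.filter (fun e => S.any (fun e' => decide (e'.2.getD 1 0 = e.2.getD 0 0)))

theorem mem_step {E S : List (ℕ × List ℕ)} {e : ℕ × List ℕ} :
    e ∈ step E S ↔ e ∈ E ∧ ∃ e' ∈ S, e'.2.getD 1 0 = e.2.getD 0 0 := by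
  simp [step]

theorem sz_filter_le {α : Type} [TEnc α] (p : α → Bool) (l : List α) : sz (l.filter p) ≤ sz l := by
  induction l with
  | nil => simp
  | cons a l ih =>
    rw [List.filter_cons]
    split
    · rw [sz_list_cons, sz_list_cons]
      omega
    · rw [sz_list_cons]
      omega

theorem sz_iter (E : List (ℕ × List ℕ)) (k : ℕ) : sz ((step E)^[k] E) ≤ sz E := by
  cases k with
  | zero => exact le_rfl
  | succ k =>
    rw [Function.iterate_succ_apply']
    exact sz_filter_le _ _

/-- The test. -/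
def acyc (I : Inst) : Bool := ((step I.2)^[I.1.length] I.2).isEmpty

theorem poly_acyc : Poly acyc := by
  have h := Poly.iterLen (α := Inst) (l := fun I => I.1) (s := fun I => I.2)
    (F := fun I S => step I.2 S) (by fun_prop) (by fun_prop)
    (by unfold step; fun_prop) Polynomial.X (fun I k _ => by
      have h1 : sz ((fun S => step I.2 S)^[k] I.2) ≤ sz I.2 := sz_iter I.2 k
      have h2 : sz I = sz I.1 + sz I.2 + 1 := by
        cases I
        simp
      rw [Polynomial.eval_X]
      omega)
  unfold acyc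
  exact Poly.isEmpty h

theorem acyc_of_hom {n : ℕ} {E : List (ℕ × List ℕ)} (hE : ∀ e ∈ E, e.2.getD 0 0 < n) (h : ℕ → ℚ)
    (hh : ∀ e ∈ E, h (e.2.getD 0 0) < h (e.2.getD 1 0)) : (step E)^[n] E = [] := by
  classical
  have hmem : ∀ t, ∀ e ∈ (step E)^[t] E, e ∈ E := by
    intro t
    cases t with
    | zero => exact fun e he => he
    | succ t =>
      intro e he
      rw [Function.iterate_succ_apply', mem_step] at he
      exact he.1
  have key : ∀ t, ∀ e ∈ (step E)^[t] E,
      t ≤ ((Finset.range n).filter (fun v => h v < h (e.2.getD 0 0))).card := by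
    intro t
    induction t with
    | zero => exact fun _ _ => Nat.zero_le _
    | succ t ih =>
      intro e he
      rw [Function.iterate_succ_apply', mem_step] at he
      obtain ⟨he, e', he', h1⟩ := he
      have h2 := ih e' he'
      have h3 := hh e' (hmem t e' he')
      rw [h1] at h3
      have h4 : (Finset.range n).filter (fun v => h v < h (e'.2.getD 0 0)) ⊂
          (Finset.range n).filter (fun v => h v < h (e.2.getD 0 0)) := by
        rw [Finset.ssubset_iff_of_subset]
        · refine ⟨e'.2.getD 0 0, ?_, ?_⟩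
          · exact Finset.mem_filter.2 ⟨Finset.mem_range.2 (hE e' (hmem t e' he')), h3⟩
          · rw [Finset.mem_filter]
            exact fun h5 => lt_irrefl _ h5.2
        · intro v hv
          rw [Finset.mem_filter] at hv ⊢
          exact ⟨hv.1, hv.2.trans h3⟩
      have := Finset.card_lt_card h4
      omega
  by_contra hne
  obtain ⟨e, he⟩ := List.exists_mem_of_ne_nil _ hne
  have h1 := key n e he
  have h2 : ((Finset.range n).filter (fun v => h v < h (e.2.getD 0 0))) ⊂ Finset.range n := by
    rw [Finset.ssubset_iff_of_subset (Finset.filter_subset _ _)]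
    refine ⟨e.2.getD 0 0, Finset.mem_range.2 (hE e (hmem n e he)), ?_⟩
    rw [Finset.mem_filter]
    exact fun h5 => lt_irrefl _ h5.2
  have := Finset.card_lt_card h2
  rw [Finset.card_range] at this
  omega

theorem hom_of_acyc {n : ℕ} {E : List (ℕ × List ℕ)} (h : (step E)^[n] E = []) :
    ∃ h : ℕ → ℚ, ∀ e ∈ E, h (e.2.getD 0 0) < h (e.2.getD 1 0) := by
  classical
  let s : ℕ → Finset ℕ := fun v => (Finset.range n).filter (fun t => ∃ e ∈ (step E)^[t] E,
    e.2.getD 1 0 = v)
  refine ⟨fun v => ((s v).card : ℚ), fun e he => ?_⟩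
  have hn : 0 < n := by
    rcases Nat.eq_zero_or_pos n with rfl | h'
    · rw [Function.iterate_zero, id_eq] at h
      rw [h] at he
      exact absurd he List.not_mem_nil
    · exact h'
  have h1 : insert 0 ((s (e.2.getD 0 0)).map ⟨Nat.succ, Nat.succ_injective⟩) ⊆ s (e.2.getD 1 0) := by
    intro t ht
    rw [Finset.mem_insert, Finset.mem_map] at ht
    rcases ht with rfl | ⟨t', ht', rfl⟩
    · exact Finset.mem_filter.2 ⟨Finset.mem_range.2 hn, e, he, rfl⟩
    · obtain ⟨h2, e', he', h3⟩ := Finset.mem_filter.1 ht'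
      have h4 : e ∈ (step E)^[t' + 1] E := by
        rw [Function.iterate_succ_apply', mem_step]
        exact ⟨he, e', he', h3⟩
      have h5 : t' + 1 ≠ n := by
        rintro rfl
        rw [h] at h4
        exact absurd h4 List.not_mem_nil
      rw [Finset.mem_range] at h2
      exact Finset.mem_filter.2 ⟨Finset.mem_range.2 (by change t' + 1 < n; omega), e, h4, rfl⟩
  have h2 := Finset.card_le_card h1
  rw [Finset.card_insert_of_notMem (by simp), Finset.card_map] at h2
  have h3 : (s (e.2.getD 0 0)).card < (s (e.2.getD 1 0)).card := by omega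
  change ((s (e.2.getD 0 0)).card : ℚ) < ((s (e.2.getD 1 0)).card : ℚ)
  exact_mod_cast h3

/-- The constraint satisfaction problem of `(ℚ; <)` is tractable. -/
theorem tractable_rat : Tractable ratStr := by
  intro t e
  refine inPP_of (d := fun I => isInstB (List.ofFn (fun _ : Fin t => 2)) I && acyc I)
    (Poly.and (poly_isInstB _) poly_acyc) fun I => ?_
  rw [Bool.and_eq_true, isInstB_iff]
  refine and_congr_right fun hI => ?_
  have hp : ∀ p ∈ I.2, ∃ (i : Fin t) (u : Fin 2 → Fin I.1.length),
      p = ((i : ℕ), List.ofFn (fun j => (u j : ℕ))) ∧ p.2.getD 0 0 = (u 0 : ℕ) ∧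
        p.2.getD 1 0 = (u 1 : ℕ) := by
    rintro ⟨a, l⟩ hp
    obtain ⟨⟨i, hi, hl⟩, hlt⟩ := hI _ hp
    dsimp only at hi hl hlt
    match l, hl with
    | [x, y], _ =>
      refine ⟨i, ![⟨x, hlt x (by simp)⟩, ⟨y, hlt y (by simp)⟩], ?_, rfl, rfl⟩
      rw [Prod.mk.injEq]
      exact ⟨hi.symm, rfl⟩
  rw [acyc, List.isEmpty_iff]
  constructor
  · rintro ⟨h, hh⟩
    refine acyc_of_hom (n := I.1.length) (h := fun v => if hv : v < I.1.length then h ⟨v, hv⟩ else 0)
      (fun p hpm => ?_) (fun p hpm => ?_)
    · obtain ⟨i, u, -, h1, -⟩ := hp p hpm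
      rw [h1]
      exact (u 0).2
    · obtain ⟨i, u, h0, h1, h2⟩ := hp p hpm
      rw [h0] at hpm
      have h3 : h (u 0) < h (u 1) := hh i u hpm
      rw [h1, h2, dif_pos (u 0).2, dif_pos (u 1).2]
      exact h3
  · intro h
    obtain ⟨g, hg⟩ := hom_of_acyc h
    refine ⟨fun v => g v, fun i u hiu => ?_⟩
    have h1 := hg _ hiu
    exact h1

/-! ### Finite structures -/

/-- The constraint satisfaction problem of a finite structure is in NP. -/
theorem inNPP_finite {S : Type} [Finite S] {t : ℕ} {ar : Fin t → ℕ} (𝕊 : Str (Fin t) ar S) :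
    InNPP (CSP 𝕊) := by
  classical
  obtain ⟨N, ⟨e⟩⟩ := Finite.exists_equiv_fin S
  let tab : Set (ℕ × List ℕ) :=
    {p | ∃ (i : Fin t) (v : Fin (ar i) → S), v ∈ 𝕊 i ∧ p = ((i : ℕ), List.ofFn (fun j => (e (v j) : ℕ)))}
  have hfin : tab.Finite := by
    have : tab ⊆ Set.range (fun p : Σ i : Fin t, (Fin (ar i) → S) =>
        ((p.1 : ℕ), List.ofFn (fun j => (e (p.2 j) : ℕ)))) := by
      rintro _ ⟨i, v, -, rfl⟩
      exact ⟨⟨i, v⟩, rfl⟩
    exact (Set.finite_range _).subset this
  let L : List (ℕ × List ℕ) := hfin.toFinset.toList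
  have hL : ∀ p, p ∈ L ↔ p ∈ tab := by
    intro p
    rw [Finset.mem_toList, Set.Finite.mem_toFinset]
  let R : Inst × List ℕ → Bool := fun x => isInstB (List.ofFn ar) x.1 &&
    (decide (x.2.length = x.1.1.length) && (x.2.all (fun a => decide (a < N)) &&
      x.1.2.all (fun p => decide ((p.1, p.2.map (fun v => x.2.getD v 0)) ∈ L))))
  have hR : Poly R := by
    have h1 : Poly (fun x : Inst × List ℕ => isInstB (List.ofFn ar) x.1) :=
      (poly_isInstB _).comp (Poly.fst Poly.id)
    have h2 : Poly (fun x : Inst × List ℕ => (decide (x.2.length = x.1.1.length) &&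
        (x.2.all (fun a => decide (a < N)) &&
          x.1.2.all (fun p => decide ((p.1, p.2.map (fun v => x.2.getD v 0)) ∈ L))))) := by
      fun_prop
    exact Poly.and h1 h2
  let B : ℕ := (Finset.range N).sup (fun a => sz a)
  refine inNPP_of hR (Polynomial.X * Polynomial.C (B + 1) + 1) fun I => ?_
  constructor
  · rintro ⟨hI, h, hh⟩
    refine ⟨List.ofFn (fun v => (e (h v) : ℕ)), ?_, ?_⟩
    · have h1 : sz (List.ofFn (fun v => (e (h v) : ℕ))) ≤
          (List.ofFn (fun v => (e (h v) : ℕ))).length * (B + 1) + 1 := by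
        refine sz_le_length_mul _ _ fun a ha => ?_
        rw [List.mem_ofFn] at ha
        obtain ⟨v, rfl⟩ := ha
        exact Finset.le_sup (f := fun a => sz a) (Finset.mem_range.2 (e (h v)).2)
      have h2 : I.1.length ≤ sz I := by
        have h3 := length_lt_sz I.1
        have h4 : sz I = sz I.1 + sz I.2 + 1 := by
          cases I
          simp
        omega
      rw [List.length_ofFn] at h1
      refine h1.trans ?_
      simp only [Polynomial.eval_add, Polynomial.eval_mul, Polynomial.eval_X, Polynomial.eval_C,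
        Polynomial.eval_one]
      exact Nat.add_le_add_right (Nat.mul_le_mul_right _ h2) _
    · simp only [R, Bool.and_eq_true, isInstB_iff, decide_eq_true_iff, List.length_ofFn,
        List.all_eq_true]
      refine ⟨hI, trivial, fun a ha => ?_, fun p hp => ?_⟩
      · rw [List.mem_ofFn] at ha
        obtain ⟨v, rfl⟩ := ha
        exact (e (h v)).2
      · obtain ⟨⟨i, hi, hl⟩, hlt⟩ := hI p hp
        rw [hL]
        let u : Fin (ar i) → Fin I.1.length := fun j => ⟨p.2[(j : ℕ)]'(by rw [hl]; exact j.2),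
          hlt _ (List.getElem_mem _)⟩
        have hu : p.2 = List.ofFn (fun j => (u j : ℕ)) := by
          apply List.ext_getElem
          · rw [List.length_ofFn, hl]
          · intro n h1 h2
            rw [List.getElem_ofFn]
        have hp' : p = ((i : ℕ), List.ofFn (fun j => (u j : ℕ))) := Prod.ext hi.symm hu
        refine ⟨i, fun j => h (u j), hh i u (hp' ▸ hp), ?_⟩
        rw [Prod.mk.injEq]
        refine ⟨hi.symm, ?_⟩
        rw [hu, List.map_ofFn]
        congr 1
        funext j
        simp [List.getD]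
  · rintro ⟨w, -, hw⟩
    simp only [R, Bool.and_eq_true, isInstB_iff, decide_eq_true_iff, List.all_eq_true] at hw
    obtain ⟨hI, hlen, hlt, hc⟩ := hw
    have hw' : ∀ v : Fin I.1.length, w.getD v 0 < N := by
      intro v
      have hv : (v : ℕ) < w.length := by rw [hlen]; exact v.2
      rw [List.getD_eq_getElem _ _ hv]
      exact hlt _ (List.getElem_mem _)
    refine ⟨hI, fun v => e.symm ⟨w.getD v 0, hw' v⟩, fun i u hiu => ?_⟩
    have h1 := hc _ hiu
    rw [hL] at h1
    obtain ⟨i', v, hv, heq⟩ := h1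
    rw [Prod.mk.injEq] at heq
    obtain ⟨h2, h3⟩ := heq
    obtain rfl : i = i' := Fin.ext h2
    rw [List.map_ofFn] at h3
    have h4 := List.ofFn_injective h3
    have h5 : (fun j => e.symm ⟨w.getD (u j) 0, hw' (u j)⟩) = v := by
      funext j
      rw [Equiv.symm_apply_eq]
      exact Fin.ext (congrFun h4 j)
    rw [h5]
    exact hv

/-- In a homogeneous structure with finitely many relations there are finitely many types without
parameters. -/
theorem finite_ty {D : Type} {s : ℕ} {ar : Fin s → ℕ} {𝔹 : Str (Fin s) ar D}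
    (h𝔹 : Homogeneous 𝔹) (c : Fin 0 → D) (m : ℕ) : Finite (Ty 𝔹 c m) := by
  classical
  let F : (Fin m → D) → (Set (Fin m × Fin m) × ∀ i : Fin s, Set (Fin (ar i) → Fin m)) := fun a =>
    ({p | a p.1 = a p.2}, fun i => {u | (fun j => a (u j)) ∈ 𝔹 i})
  have key : ∀ a b, F a = F b → SameType 𝔹 c a b := by
    intro a b hab
    obtain ⟨h1, h2⟩ := Prod.mk.inj hab
    have h1' : ∀ x y, a x = a y ↔ b x = b y := by
      intro x y
      have : (x, y) ∈ {p : Fin m × Fin m | a p.1 = a p.2} ↔
        (x, y) ∈ {p : Fin m × Fin m | b p.1 = b p.2} := by rw [h1]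
      exact this
    have h2' : ∀ (i : Fin s) (u : Fin (ar i) → Fin m),
        (fun j => a (u j)) ∈ 𝔹 i ↔ (fun j => b (u j)) ∈ 𝔹 i := by
      intro i u
      have h3 : {u : Fin (ar i) → Fin m | (fun j => a (u j)) ∈ 𝔹 i} =
        {u | (fun j => b (u j)) ∈ 𝔹 i} := congrFun h2 i
      have : u ∈ {u : Fin (ar i) → Fin m | (fun j => a (u j)) ∈ 𝔹 i} ↔
        u ∈ {u | (fun j => b (u j)) ∈ 𝔹 i} := by rw [h3]
      exact this
    have hmem : ∀ x : (Finset.univ.image a : Finset D), ∃ y, a y = x := by
      rintro ⟨x, hx⟩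
      obtain ⟨y, -, hy⟩ := Finset.mem_image.1 hx
      exact ⟨y, hy⟩
    choose r hr using hmem
    obtain ⟨g, hg, hg'⟩ := h𝔹 (Finset.univ.image a) (fun x => b (r x)) (by
      intro x y hxy
      have h3 := (h1' (r x) (r y)).2 hxy
      rw [hr, hr] at h3
      exact Subtype.ext h3) (by
      intro i v
      have h3 := h2' i (fun j => r (v j))
      simp only [hr] at h3
      exact h3)
    refine ⟨g, hg, fun i => i.elim0, fun j => ?_⟩
    have h3 := hg' ⟨a j, Finset.mem_image.2 ⟨j, Finset.mem_univ _, rfl⟩⟩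
    dsimp only at h3
    rw [h3]
    exact (h1' _ _).1 (hr _)
  refine Finite.of_injective (fun t : Ty 𝔹 c m => F (Quotient.out t)) ?_
  intro x y hxy
  have h1 := key _ _ hxy
  rw [← Quotient.out_eq x, ← Quotient.out_eq y]
  exact Quotient.sound h1

end Pool.Agent.U94.TC
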